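import Pool.Agent.H717.PR.Stm

/-! The overlaps are longer than `τ` (for helper717, PR). -/

set_option autoImplicit false

namespace Pool.Agent.H233.PR

open Pool.Agent.H717.PR

/-- one step of the marks is at least `S` -/
theorem mul_step {S m m' : ℤ} (hS : 0 ≤ S) (h : m < m') : S * m + S ≤ S * m' := by
  have h1 : m + 1 ≤ m' := h
  have h2 : S * (m + 1) ≤ S * m' := mul_le_mul_of_nonneg_left h1 hS
  have h3 : S * (m + 1) = S * m + S := by ring
  omega

theorem t_len (h : S_mem) : S_len := by
  intro I α β ν τ N S hM hS w hw hw0 hw5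
  obtain ⟨k, p, q⟩ := w
  have hpos := hM.pos
  rcases (h I _).1 hw with ⟨h0, _⟩ | ⟨h1, h4, hp, hq, hn⟩ | ⟨h5, h13, hp, hq, hf⟩
  · exact absurd h0 hw0
  · -- near gadgets
    simp only at h1 h4 hp hq hn
    have hnu := hM.nu1 p hp
    have hS0 : 0 ≤ S := by omega
    simp only [Pool.Agent.H717.PR.or, ol, h4, if_true]
    rcases hM.near p hp q hq hn with ⟨ha, hb, hc⟩ | ⟨ha, hb, hc⟩
    · rw [max_eq_right ha.le, min_eq_left hc.le]
      have := mul_step hS0 hb
      omega
    · rw [max_eq_left ha.le, min_eq_right hc.le]
      have := mul_step hS0 hb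
      omega
  · -- far gadgets
    simp only at h5 h13 hp hq hf hw0 hw5
    have hnu := hM.nu1 p hp
    have hS0 : 0 ≤ S := by omega
    have hk4 : ¬ k ≤ 4 := by omega
    have ht1 := hM.tau q hq p hp
    have ht2 := hM.tau p hp q hq
    by_cases hk9 : k ≤ 9
    · simp only [Pool.Agent.H717.PR.or, ol, hk4, hk9, if_true, if_false]
      by_cases hlt : β p < α q
      · simp only [hlt, if_true]
        omega
      · simp only [hlt, if_false]
        omega
    · simp only [Pool.Agent.H717.PR.or, ol, hk4, hk9, if_false]
      by_cases hlt : β p < α q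
      · simp only [hlt, if_true]
        have := mul_step hS0 hlt
        omega
      · simp only [hlt, if_false]
        rcases hM.far p hp q hq hf with hf1 | hf1
        · exact absurd hf1 hlt
        · have := mul_step hS0 hf1
          omega

end Pool.Agent.H233.PR
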